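import Pool.Agent.Lib.MP_b2c218_an.Transfer

/-!
For every continuous, positive, periodic and nonconstant speed `a` on the plane, the boundary of
the sublevel set of the effective Hamiltonian of `a(y)|p|` contains a nondegenerate segment.
-/

open Pool.Agent.Lib.MP_b2c218_an

theorem Pool.Agent.Results.MP_b2c218_an.Segment.result (a : Plane → ℝ) (hc : Continuous a)
    (hper : IsZPeriodic a) (hpos : ∀ y, 0 < a y) (hnc : ∃ x y, a x ≠ a y) :
    ∃ p q : Plane, p ≠ q ∧ segment ℝ p q ⊆ frontier {p | effHam a p ≤ 1} :=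
  Pool.Agent.Lib.MP_b2c218_an.main a hc hper hpos hnc
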